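import Pool.Agent.W2helper5.KA.Stm

set_option autoImplicit false

/-!
Piece PWF of project KA (helper5), MP_0d5e35_al.
-/

namespace Pool.Agent.W2helper73.KA

open Pool.Agent.W2helper5.KA

variable {k F Γ : Type} [Field k] [Group F] [Group Γ] (D : Dat k F Γ)

theorem r_one_left (x : F) : D.r 1 x = 1 := by
  have h := D.r_st 1 1 x
  rw [mul_one, D.l_one] at h
  exact (mul_eq_left.1 h.symm)

theorem P_succ (p : Γ × F) (n : ℕ) : P D p (n + 1) = U D (P D p n) :=
  Function.iterate_succ_apply' _ _ _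

theorem l_T (p : Γ × F) (n : ℕ) : D.l (T D p n) p.2 = (P D p n).2 := by
  induction n with
  | zero => exact D.l_one _
  | succ n ih =>
    show D.l ((P D p n).1 * T D p n) p.2 = _
    rw [D.l_mul, ih, P_succ]
    rfl

theorem r_P_succ (p : Γ × F) (n : ℕ) :
    D.r (P D p (n + 1)).1 (P D p (n + 1)).2 = (P D p n).1 := by
  rw [P_succ]
  show D.r (D.r (P D p n).1 (D.l (P D p n).1 (P D p n).2)⁻¹) (D.l (P D p n).1 (P D p n).2) = _
  rw [← D.r_mul, inv_mul_cancel, D.r_one]

theorem r_T_succ (p : Γ × F) (n : ℕ) : D.r (T D p (n + 1)) p.2 =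
    D.r (P D p n).1 (P D p n).2 * D.r (T D p n) p.2 := by
  show D.r ((P D p n).1 * T D p n) p.2 = _
  rw [D.r_st, l_T]

theorem T_mul (p : Γ × F) (n : ℕ) : T D p n * D.r p.1 p.2 =
    D.r (P D p n).1 (P D p n).2 * D.r (T D p n) p.2 := by
  induction n with
  | zero =>
    show 1 * D.r p.1 p.2 = D.r p.1 p.2 * D.r 1 p.2
    rw [r_one_left, one_mul, mul_one]
  | succ n ih =>
    rw [r_P_succ, r_T_succ, ← ih]
    show (P D p n).1 * T D p n * _ = _
    rw [mul_assoc]

variable [Fintype F]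

/-- product over the last variable -/
def av (s : Γ) (x : F) : k := ∏ y, D.σ s x y

/-- product over the first variable -/
def bv (s t : Γ) : k := ∏ y, D.τ y s t

theorem bv_ne (s t : Γ) : bv D s t ≠ 0 := Finset.prod_ne_zero_iff.2 fun _ _ => D.τ_ne _ _ _

theorem av_one (s : Γ) : av D s 1 = 1 := Finset.prod_eq_one fun _ _ => D.σ_one₁ _ _

theorem one_av (x : F) : av D 1 x = 1 := Finset.prod_eq_one fun _ _ => D.σ_one₀ _ _

theorem one_bv (t : Γ) : bv D 1 t = 1 := Finset.prod_eq_one fun _ _ => D.τ_one₁ _ _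

theorem bv_one (s : Γ) : bv D s 1 = 1 := Finset.prod_eq_one fun _ _ => D.τ_one₂ _ _

omit [Fintype F] in
theorem l_bij (s : Γ) : Function.Bijective (D.l s) := by
  refine Function.bijective_iff_has_inverse.2 ⟨D.l s⁻¹, fun x => ?_, fun x => ?_⟩
  · rw [← D.l_mul, inv_mul_cancel, D.l_one]
  · rw [← D.l_mul, mul_inv_cancel, D.l_one]

theorem eq1 (s : Γ) (x y : F) : D.σ s x y ^ Fintype.card F * av D s (x * y) =
    av D (D.r s x) y * av D s x := by
  have h1 : ∏ z, (D.σ (D.r s x) y z * D.σ s x (y * z)) =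
      ∏ z, (D.σ s x y * D.σ s (x * y) z) := Finset.prod_congr rfl fun z _ => D.coc₁ s x y z
  rw [Finset.prod_mul_distrib, Finset.prod_mul_distrib, Finset.prod_const, Finset.card_univ,
    Fintype.prod_equiv (Equiv.mulLeft y) (fun z => D.σ s x (y * z)) (fun z => D.σ s x z)
      fun _ => rfl] at h1
  exact h1.symm

theorem eq2 (s t u : Γ) : bv D (s * t) u * bv D s t = bv D s (t * u) * bv D t u := by
  have h1 : ∏ x, (D.τ x (s * t) u * D.τ (D.l u x) s t) =
      ∏ x, (D.τ x s (t * u) * D.τ x t u) := Finset.prod_congr rfl fun x _ => D.coc₂ x s t u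
  rw [Finset.prod_mul_distrib, Finset.prod_mul_distrib,
    Fintype.prod_equiv (Equiv.ofBijective _ (l_bij D u)) (fun x => D.τ (D.l u x) s t)
      (fun x => D.τ x s t) fun _ => rfl] at h1
  exact h1

theorem eq3 (s t : Γ) (x : F) : av D (s * t) x * bv D s t =
    av D s (D.l t x) * av D t x * D.τ x s t ^ Fintype.card F *
      bv D (D.r s (D.l t x)) (D.r t x) := by
  have h1 : ∏ y, (D.σ (s * t) x y * D.τ (x * y) s t) =
      ∏ y, (D.σ s (D.l t x) (D.l (D.r t x) y) * D.σ t x y * D.τ x s t *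
        D.τ y (D.r s (D.l t x)) (D.r t x)) := Finset.prod_congr rfl fun y _ => D.coc₃ s t x y
  rw [Finset.prod_mul_distrib, Finset.prod_mul_distrib, Finset.prod_mul_distrib,
    Finset.prod_mul_distrib, Finset.prod_const, Finset.card_univ,
    Fintype.prod_equiv (Equiv.mulLeft x) (fun y => D.τ (x * y) s t) (fun y => D.τ y s t)
      fun _ => rfl,
    Fintype.prod_equiv (Equiv.ofBijective _ (l_bij D (D.r t x)))
      (fun y => D.σ s (D.l t x) (D.l (D.r t x) y)) (fun y => D.σ s (D.l t x) y)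
      fun _ => rfl] at h1
  exact h1

theorem key (p : Γ × F) (n : ℕ) :
    c D p n ^ Fintype.card F * av D (D.r (P D p n).1 (P D p n).2) (X D p n) *
      bv D (T D p n) (D.r p.1 p.2) =
    av D (T D p n) p.2 * bv D (D.r (P D p n).1 (P D p n).2) (D.r (T D p n) p.2) := by
  induction n with
  | zero =>
    show (1 : k) ^ Fintype.card F * av D (D.r p.1 p.2) 1 * bv D 1 (D.r p.1 p.2) =
      av D 1 p.2 * bv D (D.r p.1 p.2) (D.r 1 p.2)
    rw [r_one_left, av_one, one_bv, one_av, bv_one]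
    simp
  | succ n ih =>
    rw [r_P_succ]
    have e1 := eq1 D (P D p n).1 (P D p n).2 (X D p n)
    have e2 := eq2 D (P D p n).1 (T D p n) (D.r p.1 p.2)
    rw [T_mul, ← r_T_succ] at e2
    have e3 := eq3 D (P D p n).1 (T D p n) p.2
    rw [l_T] at e3
    have hT : (P D p n).1 * T D p n = T D p (n + 1) := rfl
    have hX : (P D p n).2 * X D p n = X D p (n + 1) := rfl
    have hc : c D p (n + 1) = D.τ p.2 (P D p n).1 (T D p n) *
      D.σ (P D p n).1 (P D p n).2 (X D p n) * c D p n := rfl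
    rw [hX] at e1
    rw [hT] at e2 e3
    rw [hc, mul_pow, mul_pow]
    refine mul_right_cancel₀ (mul_ne_zero (bv_ne D (P D p n).1 (T D p n))
      (bv_ne D (T D p n) (D.r p.1 p.2))) ?_
    generalize D.τ p.2 (P D p n).1 (T D p n) ^ Fintype.card F = τF at *
    generalize D.σ (P D p n).1 (P D p n).2 (X D p n) ^ Fintype.card F = σF at *
    generalize c D p n ^ Fintype.card F = cF at *
    linear_combination
      (τF * cF * (bv D (T D p (n + 1)) (D.r p.1 p.2) * bv D (P D p n).1 (T D p n)) *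
        bv D (T D p n) (D.r p.1 p.2)) * e1 +
      (τF * cF * (av D (D.r (P D p n).1 (P D p n).2) (X D p n) *
        av D (P D p n).1 (P D p n).2) * bv D (T D p n) (D.r p.1 p.2)) * e2 +
      (τF * av D (P D p n).1 (P D p n).2 * bv D (P D p n).1 (D.r (T D p (n + 1)) p.2) *
        bv D (T D p n) (D.r p.1 p.2)) * ih -
      (bv D (P D p n).1 (D.r (T D p (n + 1)) p.2) * bv D (T D p n) (D.r p.1 p.2)) * e3

theorem PWF : P_PWF := by
  intro k F Γ _ _ _ _ _ D p N hT hX
  have h := key D p N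
  rw [hT, hX, r_one_left, av_one, one_bv, one_av, bv_one, mul_one, mul_one, mul_one] at h
  exact h

end Pool.Agent.W2helper73.KA
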